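import Pool.Agent.helper68.BD2.Assembly

/-!
# MP_4467b5_nt: beyond the density hypothesis, for all `σ > 3/4`

`NZ σ T` is the number of zeros `ρ` of the Riemann zeta function with `Re ρ ≥ σ` and
`0 < Im ρ ≤ T`, counted with multiplicity (`N(σ, T)` of the problem).

The theorem: for every `σ₀ > 3/4` and every `ε > 0` there is `C` such that
`N(σ, T) ≤ C T^(A(σ) (1 - σ) + ε)` for all `T ≥ 1` and all `σ₀ ≤ σ ≤ 1`, where
`A(σ) = max (4/(4σ-1)) (3/(1+σ))` (the first number for `σ ≤ 7/8`, the second for `σ ≥ 7/8`), which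
is less than `2` for every `σ > 3/4`.

Method: detection of the zeros by smooth zeta sums, cut at `Y = T^(A/4)`. A Dirichlet polynomial `D`
of length at most `Y` is large on the set of the zeros together with a power `D^k` whose length is
between `T^(A/3)` and `T^(A/2)`: the one-sided Halász–Montgomery inequality with zeta weights is used
for the power with two different scales and without absorption, and the double zeta sum of the
second scale is bounded by the same inequality for `D` itself, with absorption. The zeta sums longer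
than `Y` are treated by a bound for their large values which has the strength of the twelfth power
moment of `ζ(1/2 + it)` and is proved here without the functional equation of the zeta function.
-/

set_option autoImplicit false

open Complex

namespace Pool.Agent.Results.MP_4467b5_nt.BeyondDensity

/-- The set of the zeros `ρ` of the zeta function with `Re ρ ≥ σ` and `0 < Im ρ ≤ T`. -/
def zeroSet (σ T : ℝ) : Set ℂ := {ρ : ℂ | riemannZeta ρ = 0 ∧ σ ≤ ρ.re ∧ 0 < ρ.im ∧ ρ.im ≤ T}

/-- The number of zeros `ρ` of the zeta function with `Re ρ ≥ σ` and `0 < Im ρ ≤ T`, counted with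
multiplicity (the order of the zeta function at `ρ`). -/
noncomputable def NZ (σ T : ℝ) : ℕ := ∑ᶠ ρ ∈ zeroSet σ T, analyticOrderNatAt riemannZeta ρ

/-- The zero density exponent: `4/(4σ-1)` for `3/4 < σ ≤ 7/8`, `3/(1+σ)` for `7/8 ≤ σ ≤ 1`. -/
noncomputable def A (σ : ℝ) : ℝ := max (4 / (4 * σ - 1)) (3 / (1 + σ))

theorem zeroSet_finite {σ T : ℝ} (hσ : 0 ≤ σ) : (zeroSet σ T).Finite := by
  have hb : Bornology.IsBounded ((Set.Icc (0 : ℝ) 1) ×ℂ (Set.Icc 0 T)) :=
    (Metric.isBounded_Icc _ _).reProdIm (Metric.isBounded_Icc _ _)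
  refine (Pool.Agent.helper6.LD.zeros_finite hb).subset fun ρ hρ => ?_
  obtain ⟨h1, h2, h3, h4⟩ := hρ
  have h5 : ρ.re < 1 := by
    by_contra hc
    exact riemannZeta_ne_zero_of_one_le_re (not_lt.mp hc) h1
  refine ⟨?_, h1⟩
  rw [Complex.mem_reProdIm]
  exact ⟨⟨by linarith, h5.le⟩, ⟨h3.le, h4⟩⟩

/-- For every `σ > 3/4` the zero density exponent `A σ = max (4/(4σ-1)) (3/(1+σ)) < 2` is
admissible, uniformly for `σ ≥ σ₀ > 3/4`. -/
theorem result (σ₀ ε : ℝ) (hσ₀ : 3 / 4 < σ₀) (hε : 0 < ε) : ∃ C : ℝ, 0 < C ∧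
    ∀ T σ : ℝ, 1 ≤ T → σ₀ ≤ σ → σ ≤ 1 →
      (zeroSet σ T).Finite ∧ (NZ σ T : ℝ) ≤ C * T ^ (A σ * (1 - σ) + ε) := by
  obtain ⟨C, hC, h⟩ := Pool.Agent.BEY.fin2 σ₀ ε hσ₀ hε
  refine ⟨C, hC, fun T σ hT h1 h2 => ?_⟩
  have hf : (zeroSet σ T).Finite := zeroSet_finite (by linarith)
  refine ⟨hf, ?_⟩
  have h3 := h T σ (A σ) hT h1 h2 (Pool.Agent.BEY.Ok_Ae (by linarith) h2) hf.toFinset
    (fun ρ hρ => (Set.Finite.mem_toFinset hf).mp hρ)
  have h4 : NZ σ T = ∑ ρ ∈ hf.toFinset, analyticOrderNatAt riemannZeta ρ :=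
    finsum_mem_eq_finite_toFinset_sum _ hf
  rw [h4, Nat.cast_sum]
  exact h3

end Pool.Agent.Results.MP_4467b5_nt.BeyondDensity
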