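import Pool.Agent.helper5.LDH.Assembly

/-!
# MP_4467b5_nt: the density hypothesis for `σ > 3/4` in every interval of length at least `T^(1/4)`

`NZ σ U H` is the number of zeros `ρ` of the Riemann zeta function with `Re ρ ≥ σ` and
`U < Im ρ ≤ U + H`, counted with multiplicity; `NZ σ 0 T` is `N(σ, T)` of the problem.

The theorem: for every `σ₀ > 3/4` and every `ε > 0` there is `C` such that
`NZ σ U H ≤ C H^(2 (1 - σ) + ε)` for all `σ₀ ≤ σ ≤ 1` and every interval `(U, U + H]` in `(0, T]`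
with `H ≥ T^(1/4)`.

Method: elementary detection of the zeros (no moments of the zeta function); Dirichlet polynomials
of length at most `H` by the large values theorem of `LargeValues`, applied to powers; the zeta sums
of length `N ≥ H` by the mean square `∫ |∑ n^(-it)|² ≤ C H^(1/2) N^(3/2)` over intervals of length
`H`, which follows from the second and third derivative tests when `H ≥ T^(1/4)`.
-/

set_option autoImplicit false

open Complex

namespace Pool.Agent.Results.MP_4467b5_nt.DensityShortIntervals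

/-- The set of the zeros `ρ` of the zeta function with `Re ρ ≥ σ` and `U < Im ρ ≤ U + H`. -/
def zeroSet (σ U H : ℝ) : Set ℂ :=
  {ρ : ℂ | riemannZeta ρ = 0 ∧ σ ≤ ρ.re ∧ U < ρ.im ∧ ρ.im ≤ U + H}

/-- The number of zeros `ρ` of the zeta function with `Re ρ ≥ σ` and `U < Im ρ ≤ U + H`, counted
with multiplicity (the order of the zeta function at `ρ`). -/
noncomputable def NZ (σ U H : ℝ) : ℕ :=
  ∑ᶠ ρ ∈ zeroSet σ U H, analyticOrderNatAt riemannZeta ρ

theorem zeroSet_finite {σ U H : ℝ} (hσ : 0 ≤ σ) : (zeroSet σ U H).Finite := by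
  have hb : Bornology.IsBounded ((Set.Icc (0 : ℝ) 1) ×ℂ (Set.Icc U (U + H))) :=
    (Metric.isBounded_Icc _ _).reProdIm (Metric.isBounded_Icc _ _)
  refine (Pool.Agent.helper6.LD.zeros_finite hb).subset fun ρ hρ => ?_
  obtain ⟨h1, h2, h3, h4⟩ := hρ
  have h5 : ρ.re < 1 := by
    by_contra hc
    exact riemannZeta_ne_zero_of_one_le_re (not_lt.mp hc) h1
  refine ⟨?_, h1⟩
  rw [Complex.mem_reProdIm]
  exact ⟨⟨by linarith, h5.le⟩, ⟨h3.le, h4⟩⟩

/-- The density hypothesis holds for all `σ > 3/4` in every interval of length at least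
`T^(1/4)`. -/
theorem result (σ₀ ε : ℝ) (hσ₀ : 3 / 4 < σ₀) (hε : 0 < ε) : ∃ C : ℝ, 0 < C ∧
    ∀ T U H σ : ℝ, 1 ≤ T → 0 ≤ U → T ^ (1 / 4 : ℝ) ≤ H → U + H ≤ T → σ₀ ≤ σ → σ ≤ 1 →
      (zeroSet σ U H).Finite ∧ (NZ σ U H : ℝ) ≤ C * H ^ (2 * (1 - σ) + ε) := by
  obtain ⟨C, hC, h⟩ := Pool.Agent.LDH.fin σ₀ ε hσ₀ hε
  refine ⟨C, hC, fun T U H σ hT hU hH hUH h1 h2 => ?_⟩
  have hf : (zeroSet σ U H).Finite := zeroSet_finite (by linarith)
  refine ⟨hf, ?_⟩
  have h3 := h T U H σ hT hU hH hUH h1 h2 hf.toFinset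
    (fun ρ hρ => (Set.Finite.mem_toFinset hf).mp hρ)
  have h4 : NZ σ U H = ∑ ρ ∈ hf.toFinset, analyticOrderNatAt riemannZeta ρ :=
    finsum_mem_eq_finite_toFinset_sum _ hf
  rw [h4, Nat.cast_sum]
  exact h3

end Pool.Agent.Results.MP_4467b5_nt.DensityShortIntervals
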