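import Pool.Agent.helper16.Reserve.LargeValuesV2

/-!
# A large values theorem for Dirichlet polynomials

Let `D(t) = ∑ a n * n ^ (-it)`, `N < n ≤ 2 N ≤ 2 T`, `|a n| ≤ 1`, and let `W` be a set of points with distances at
least `1` in an interval of length `T` at which `|D(t)| ≥ V`. Then
`|W| ≤ C T ^ ε (N ^ 2 / V ^ 2 + (T ^ (1/2) N ^ 3 + T ^ (6/7) N ^ (18/7) + T N ^ 2) / V ^ 4)`,
and the last two terms can be omitted if `V ^ 2 ≥ C T ^ ε N ^ (3/2)`.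

Sketch of the proof of the first bound. For `N ≤ T ^ (3/5)` it is the mean value theorem for `D ^ 2`.
Otherwise pass to integers `|j| < J`, `J` of size `T`, with Fejer weights `w_j`. Let
`F_j = w_j |D(j)| ^ 2` if `|D(j)| ≤ U` and `F_j = 0` otherwise, `m = ∑ F_j |D(j)| ^ 2`, and let `X = N L`.
The matrix with the entries `F_j ^ (1/2) B(j - k) F_k ^ (1/2)`, `B(u) = ∑ k ^ (-iu)` a smooth sum of length
`X`, is positive and equal to `O + D₀`, where `D₀` comes from the zero frequency of the Poisson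
formula. With the `L` vectors `F_j ^ (1/2) D(j) l ^ (-ij)`, `L < l ≤ 2 L`, one gets
`L m ^ 3 ≤ T ^ ε N ^ 3 (|tr O ^ 3| + |tr O ^ 2 D₀|)` unless `m ≤ C N ^ 2 L U ^ 2`. The key point is that the
weights `F_j` are essentially explicit: `∑ w_k |D(k)| ^ 2 |B(u - k)| ^ 2 ≤ T ^ ε X T N` for all `u` (a divisor
problem for `n m - n' m'`), which bounds `tr O ^ 2 D₀`, and `|∑ w_j |D(j)| ^ 2 e ^ (ijx)|` is bounded by
`∑ w_q |∑ n ^ (-iq)| ^ 2 e ^ (iqx)`, which bounds the third moment of `∑ F_j e ^ (ijx)`, and so the trace of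
`O ^ 3`. Choose `L = T ^ (5/7) N ^ (-6/7)`.
-/

set_option autoImplicit false

namespace Pool.Agent.Results.MP_4467b5_nt.LargeValues

theorem result (ε : ℝ) (hε : 0 < ε) : ∃ C : ℝ, 0 < C ∧
    ∀ (T T₀ : ℝ) (N : ℕ) (a : ℕ → ℂ) (V : ℝ) (W : Finset ℝ), 1 ≤ T → 1 ≤ N → (N : ℝ) ≤ T → 0 < V →
    (∀ n ∈ Finset.Ioc N (2 * N), ‖a n‖ ≤ 1) →
    (∀ t ∈ W, T₀ ≤ t ∧ t ≤ T₀ + T) → (∀ t ∈ W, ∀ s ∈ W, t ≠ s → 1 ≤ |t - s|) →
    (∀ t ∈ W, V ≤ ‖∑ n ∈ Finset.Ioc N (2 * N), a n * (n : ℂ) ^ (-((t : ℂ) * Complex.I))‖) →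
    (W.card : ℝ) ≤ C * T ^ ε * ((N : ℝ) ^ 2 / V ^ 2 + (T ^ (1 / 2 : ℝ) * (N : ℝ) ^ 3 +
        T ^ (6 / 7 : ℝ) * (N : ℝ) ^ (18 / 7 : ℝ) + T * (N : ℝ) ^ 2) / V ^ 4) ∧
    (C * T ^ ε * (N : ℝ) ^ (3 / 2 : ℝ) ≤ V ^ 2 →
      (W.card : ℝ) ≤ C * T ^ ε * ((N : ℝ) ^ 2 / V ^ 2 + T ^ (1 / 2 : ℝ) * (N : ℝ) ^ 3 / V ^ 4)) := by
  obtain ⟨C, hC, h⟩ := Pool.Agent.helper16.Reserve.LargeValuesV2.result ε hε
  refine ⟨C, hC, ?_⟩
  intro T T₀ N a V W hT hN hNT hV ha hW hsep hval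
  have hT0 : 0 < T := by linarith
  have hTe : 0 < T ^ ε := Real.rpow_pos_of_pos hT0 _
  have hN0 : (0 : ℝ) < N := by exact_mod_cast hN
  have hG0 : 0 ≤ ∑ n ∈ Finset.Ioc N (2 * N), ‖a n‖ ^ 2 := Finset.sum_nonneg fun n _ => by positivity
  have hGN : ∑ n ∈ Finset.Ioc N (2 * N), ‖a n‖ ^ 2 ≤ N := by
    refine (Finset.sum_le_card_nsmul _ _ 1 fun n hn => ?_).trans ?_
    · exact pow_le_one₀ (norm_nonneg _) (ha n hn)
    · rw [Nat.card_Ioc, nsmul_eq_mul, mul_one]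
      have : 2 * N - N = N := by omega
      rw [this]
  have h1 := h T T₀ N a V _ W hT hN hNT hV ha rfl hW hsep hval
  have hsmall : (N : ℝ) * (∑ n ∈ Finset.Ioc N (2 * N), ‖a n‖ ^ 2) / V ^ 2 +
      T ^ (1 / 2 : ℝ) * N * (∑ n ∈ Finset.Ioc N (2 * N), ‖a n‖ ^ 2) ^ 2 / V ^ 4 ≤
      (N : ℝ) ^ 2 / V ^ 2 + T ^ (1 / 2 : ℝ) * (N : ℝ) ^ 3 / V ^ 4 := by
    refine add_le_add ?_ ?_
    · refine div_le_div_of_nonneg_right ?_ (by positivity)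
      nlinarith
    · refine div_le_div_of_nonneg_right ?_ (by positivity)
      have h2 : (∑ n ∈ Finset.Ioc N (2 * N), ‖a n‖ ^ 2) ^ 2 ≤ (N : ℝ) ^ 2 := pow_le_pow_left₀ hG0 hGN 2
      have h3 : 0 ≤ T ^ (1 / 2 : ℝ) * N := by positivity
      calc T ^ (1 / 2 : ℝ) * N * (∑ n ∈ Finset.Ioc N (2 * N), ‖a n‖ ^ 2) ^ 2 ≤ T ^ (1 / 2 : ℝ) * N * (N : ℝ) ^ 2 :=
            mul_le_mul_of_nonneg_left h2 h3
        _ = T ^ (1 / 2 : ℝ) * (N : ℝ) ^ 3 := by ring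
  have hCT : 0 ≤ C * T ^ ε := by positivity
  constructor
  · split_ifs at h1 with hc
    · refine h1.trans (mul_le_mul_of_nonneg_left (hsmall.trans ?_) hCT)
      refine add_le_add_right ?_ _
      refine div_le_div_of_nonneg_right ?_ (by positivity)
      have h4 : 0 ≤ T ^ (6 / 7 : ℝ) * (N : ℝ) ^ (18 / 7 : ℝ) := by positivity
      have h5 : 0 ≤ T * (N : ℝ) ^ 2 := by positivity
      linarith
    · exact h1
  · intro hV2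
    have hc : C * T ^ ε * (N : ℝ) ^ (1 / 2 : ℝ) * (∑ n ∈ Finset.Ioc N (2 * N), ‖a n‖ ^ 2) ≤ V ^ 2 := by
      refine le_trans ?_ hV2
      have h6 : (N : ℝ) ^ (3 / 2 : ℝ) = (N : ℝ) ^ (1 / 2 : ℝ) * N := by
        rw [show (3 / 2 : ℝ) = 1 / 2 + 1 by norm_num, Real.rpow_add hN0, Real.rpow_one]
      rw [h6, ← mul_assoc]
      exact mul_le_mul_of_nonneg_left hGN (by positivity)
    rw [if_pos hc] at h1
    exact h1.trans (mul_le_mul_of_nonneg_left hsmall hCT)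

end Pool.Agent.Results.MP_4467b5_nt.LargeValues
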