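import Pool.Agent.helper4.NF.All
import Pool.Agent.helper16.LW.All
import Pool.Agent.helper86.NF.AsmC
import Pool.Agent.helper34.ZE.Asm

/-!
# MP_4467b5_nt: zero density with constants at most `9/4`

`NZ σ T` is the number of zeros `ρ` of the Riemann zeta function with `Re ρ ≥ σ` and
`0 < Im ρ ≤ T`, counted with multiplicity (`N(σ, T)` of the problem).

The theorem: for every `ε > 0` there is `C` such that `N(σ, T) ≤ C T^(A(σ) (1 - σ) + ε)` for all
`T ≥ 1` and all `1/2 ≤ σ ≤ 1`, where `A(σ) = 3/(2 - σ)` for `σ < 2/3`, `9/4` for `2/3 ≤ σ < 5/7`,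
`7/(1 + 3σ)` for `5/7 ≤ σ < 37/50`, `12/(9σ - 1)` for `37/50 ≤ σ ≤ 7/9` and `2` for `σ > 7/9`. So
`A(σ) ≤ 9/4` for all `σ`, and `A(3/4) = 48/23`.

Method: zero detection; mean values of powers of Dirichlet polynomials; the density hypothesis for
`σ > 3/4`; for `2/3 ≤ σ < 5/7` a new large values theorem: traces of products of three kernels, two
of them with the explicit weights `P(t) conj P(t')`, positivity in one slot, and the off-diagonal
triple sums are bounded at the reduced fractions by the large sieve and by duality; for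
`5/7 ≤ σ ≤ 3/4` two more large values theorems: amplified traces of cubes with a third moment bound,
and the one of `LargeValues`; for `σ ≥ 37/50` the amplified moduli are so long (`N L² > T`) that the
double zeta sum over them is `≪ R² L T^ε`, which gives `12/(9σ - 1)`.
-/

set_option autoImplicit false

open Complex

namespace Pool.Agent.Results.MP_4467b5_nt.NineFourths

/-- The set of the zeros `ρ` of the zeta function with `Re ρ ≥ σ` and `0 < Im ρ ≤ T`. -/
def zeroSet (σ T : ℝ) : Set ℂ := {ρ : ℂ | riemannZeta ρ = 0 ∧ σ ≤ ρ.re ∧ 0 < ρ.im ∧ ρ.im ≤ T}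

/-- The number of zeros `ρ` of the zeta function with `Re ρ ≥ σ` and `0 < Im ρ ≤ T`, counted with
multiplicity (the order of the zeta function at `ρ`). -/
noncomputable def NZ (σ T : ℝ) : ℕ := ∑ᶠ ρ ∈ zeroSet σ T, analyticOrderNatAt riemannZeta ρ

/-- The constant `A(σ)`. -/
noncomputable def A (σ : ℝ) : ℝ :=
  if σ < 2 / 3 then 3 / (2 - σ)
  else if σ < 5 / 7 then 9 / 4
  else if σ < 37 / 50 then 7 / (1 + 3 * σ)
  else if σ ≤ 7 / 9 then 12 / (9 * σ - 1)
  else 2

theorem zeroSet_finite {σ T : ℝ} (hσ : 0 ≤ σ) : (zeroSet σ T).Finite := by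
  have hb : Bornology.IsBounded ((Set.Icc (0 : ℝ) 1) ×ℂ (Set.Icc 0 T)) :=
    (Metric.isBounded_Icc _ _).reProdIm (Metric.isBounded_Icc _ _)
  refine (Pool.Agent.helper6.LD.zeros_finite hb).subset fun ρ hρ => ?_
  obtain ⟨h1, h2, h3, h4⟩ := hρ
  have h5 : ρ.re < 1 := by
    by_contra hc
    exact riemannZeta_ne_zero_of_one_le_re (not_lt.mp hc) h1
  refine ⟨?_, h1⟩
  rw [Complex.mem_reProdIm]
  exact ⟨⟨by linarith, h5.le⟩, ⟨h3.le, h4⟩⟩

theorem wA_eq {σ : ℝ} (h : σ < 37 / 50) : Pool.Agent.NF.wA σ = A σ * (1 - σ) := by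
  unfold Pool.Agent.NF.wA Pool.Agent.NF.AA A
  congr 1
  split_ifs with h1 h2 h3 <;> first | rfl | linarith

theorem wE_eq {σ : ℝ} (h : 37 / 50 ≤ σ) : Pool.Agent.ZE.wE σ = A σ * (1 - σ) := by
  unfold Pool.Agent.ZE.wE Pool.Agent.ZE.AE A
  congr 1
  rw [if_neg (show ¬ σ < 2 / 3 by linarith), if_neg (show ¬ σ < 5 / 7 by linarith),
    if_neg (show ¬ σ < 37 / 50 by linarith)]

/-- Zero density with constants at most `9/4`. -/
theorem result (ε : ℝ) (hε : 0 < ε) : ∃ C : ℝ, 0 < C ∧ ∀ T σ : ℝ, 1 ≤ T →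
    1 / 2 ≤ σ → σ ≤ 1 →
      (zeroSet σ T).Finite ∧ (NZ σ T : ℝ) ≤ C * T ^ (A σ * (1 - σ) + ε) := by
  obtain ⟨C, hC, h⟩ := Pool.Agent.NF.nft_of Pool.Agent.NF.n_lvd Pool.Agent.LW.l_fin ε hε
  obtain ⟨C', hC', h'⟩ := Pool.Agent.ZE.ftb_of Pool.Agent.LW.l_fin ε hε
  refine ⟨C + C', by positivity, fun T σ hT h1 h2 => ?_⟩
  have hf : (zeroSet σ T).Finite := zeroSet_finite (by linarith)
  refine ⟨hf, ?_⟩
  have h4 : NZ σ T = ∑ ρ ∈ hf.toFinset, analyticOrderNatAt riemannZeta ρ :=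
    finsum_mem_eq_finite_toFinset_sum _ hf
  have hp : 0 < T ^ (A σ * (1 - σ) + ε) := Real.rpow_pos_of_pos (by linarith) _
  rw [h4, Nat.cast_sum]
  rcases lt_or_ge σ (37 / 50) with hs | hs
  · have h3 := h T σ hT h1 h2 hf.toFinset (fun ρ hρ => (Set.Finite.mem_toFinset hf).mp hρ)
    rw [wA_eq hs] at h3
    exact le_trans h3 (mul_le_mul_of_nonneg_right (by linarith) hp.le)
  · have h3 := h' T σ hT hs h2 hf.toFinset (fun ρ hρ => (Set.Finite.mem_toFinset hf).mp hρ)
    rw [wE_eq hs] at h3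
    exact le_trans h3 (mul_le_mul_of_nonneg_right (by linarith) hp.le)

end Pool.Agent.Results.MP_4467b5_nt.NineFourths
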